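import Mathlib
import Pool.Agent.H632R3.BranchProb

/-!
# Extinction probabilities in an arbitrary set of types
-/

open Filter Topology Set MeasureTheory ProbabilityTheory
open scoped ENNReal
open Pool.Agent.H632R3.Branch

set_option linter.unusedSectionVars false

namespace Pool.Agent.Q210.BR

noncomputable section

variable {X : Type} [Countable X]

open Classical in
/-- Indicator of the complement of `A`. -/
def chi (A : Set X) (x : X) : ℝ := if x ∈ A then 0 else 1

theorem chi_box (A : Set X) : Box (chi A) := by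
  intro x; unfold chi; split_ifs <;> norm_num

open Classical in
theorem mon_chi (A : Set X) (z : X →₀ ℕ) :
    mon (chi A) z = if ∀ y ∈ A, z y = 0 then 1 else 0 := by
  unfold mon Finsupp.prod
  split_ifs with h
  · refine Finset.prod_eq_one fun y hy => ?_
    have : y ∉ A := fun hyF => (Finsupp.mem_support_iff.mp hy) (h y hyF)
    simp [chi, this]
  · push Not at h
    obtain ⟨y, hyF, hy⟩ := h
    refine Finset.prod_eq_zero (Finsupp.mem_support_iff.mpr hy) ?_
    simp [chi, hyF, hy]

/-- `aSeq μ A j x` is the probability of avoiding `A` in generations `0, ..., j`. -/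
def aSeq (μ : X → PMF (X →₀ ℕ)) (A : Set X) : ℕ → X → ℝ
  | 0 => chi A
  | j + 1 => fun x => chi A x * gen μ (aSeq μ A j) x

theorem boxMul {s t : X → ℝ} (hs : Box s) (ht : Box t) : Box fun y => s y * t y := fun x =>
  ⟨mul_nonneg (hs x).1 (ht x).1, mul_le_one₀ (hs x).2 (ht x).1 (ht x).2⟩

theorem aSeq_box (μ : X → PMF (X →₀ ℕ)) (A : Set X) (j : ℕ) : Box (aSeq μ A j) := by
  induction j with
  | zero => exact chi_box A
  | succ j ih => exact boxMul (chi_box A) ((gen_good μ).box _ ih)

/-- The event that no type of `A` is present in generation `n`. -/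
def Zev (x : X) (n : ℕ) (A : Set X) : Set (Sample X) := {ω | ∀ y ∈ A, pop x ω n y = 0}

theorem Zev_meas (x : X) (n : ℕ) (A : Set X) : MeasurableSet (Zev x n A) :=
  pop_meas' x n (MeasurableSet.of_discrete (s := {z : X →₀ ℕ | ∀ y ∈ A, z y = 0}))

open Classical in
theorem mon_chi_pop (x : X) (n : ℕ) (A : Set X) (ω : Sample X) :
    ENNReal.ofReal (mon (chi A) (pop x ω n)) = (Zev x n A).indicator 1 ω := by
  rw [mon_chi]
  by_cases h : ω ∈ Zev x n A
  · have h' : ∀ y ∈ A, pop x ω n y = 0 := h
    rw [indicator_of_mem h, if_pos h']; simp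
  · have h' : ¬ ∀ y ∈ A, pop x ω n y = 0 := h
    rw [indicator_of_notMem h, if_neg h']; simp

theorem meas_mon_pop (w : X → ℝ) (x : X) (n : ℕ) :
    Measurable[past X n] fun ω : Sample X => ENNReal.ofReal (mon w (pop x ω n)) :=
  (measurable_of_countable fun f : X →₀ ℕ => ENNReal.ofReal (mon w f)).comp (pop_meas x n)

/-- Avoiding `A` in generations `K, ..., K+j`. -/
def Rev (x : X) (K j : ℕ) (A : Set X) : Set (Sample X) :=
  {ω | ∀ n, K ≤ n → n ≤ K + j → ω ∈ Zev x n A}

theorem Rev_meas (x : X) (K j : ℕ) (A : Set X) : MeasurableSet (Rev x K j A) := by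
  have : Rev x K j A = ⋂ n, ⋂ (_ : K ≤ n), ⋂ (_ : n ≤ K + j), Zev x n A := by
    ext ω; simp [Rev]
  rw [this]
  exact MeasurableSet.iInter fun n => MeasurableSet.iInter fun _ => MeasurableSet.iInter fun _ =>
    Zev_meas x n A

theorem Rev_succ (x : X) (K j : ℕ) (A : Set X) (ω : Sample X) :
    ω ∈ Rev x K (j + 1) A ↔ ω ∈ Zev x K A ∧ ω ∈ Rev x (K + 1) j A := by
  constructor
  · intro h
    exact ⟨h K le_rfl (by omega), fun n h1 h2 => h n (by omega) (by omega)⟩
  · rintro ⟨h1, h2⟩ n h3 h4
    rcases h3.lt_or_eq with h5 | h5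
    · exact h2 n h5 (by omega)
    · exact h5 ▸ h1

theorem stay (μ : X → PMF (X →₀ ℕ)) (x : X) (A : Set X) (j K : ℕ)
    (Ψ : Sample X → ℝ≥0∞) (hΨ : Measurable[past X K] Ψ) :
    ∫⁻ ω, Ψ ω * (Rev x K j A).indicator 1 ω ∂(law μ) =
      ∫⁻ ω, Ψ ω * ENNReal.ofReal (mon (aSeq μ A j) (pop x ω K)) ∂(law μ) := by
  classical
  induction j generalizing K Ψ with
  | zero =>
    refine lintegral_congr fun ω => ?_
    have h1 : (Rev x K 0 A).indicator (1 : Sample X → ℝ≥0∞) ω = (Zev x K A).indicator 1 ω := by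
      have : Rev x K 0 A = Zev x K A := by
        ext ω
        constructor
        · intro h; exact h K le_rfl le_rfl
        · intro h n h3 h4
          have : n = K := by omega
          exact this ▸ h
      rw [this]
    rw [h1, ← mon_chi_pop]
    rfl
  | succ j ih =>
    have h1 : ∀ ω : Sample X, Ψ ω * (Rev x K (j + 1) A).indicator 1 ω =
        (Ψ ω * ENNReal.ofReal (mon (chi A) (pop x ω K))) * (Rev x (K + 1) j A).indicator 1 ω := by
      intro ω
      rw [mon_chi_pop]
      by_cases ha : ω ∈ Zev x K A <;> by_cases hb : ω ∈ Rev x (K + 1) j A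
      · have : ω ∈ Rev x K (j + 1) A := (Rev_succ x K j A ω).mpr ⟨ha, hb⟩
        simp [ha, hb, this]
      · have : ω ∉ Rev x K (j + 1) A := fun h => hb ((Rev_succ x K j A ω).mp h).2
        simp [hb, this]
      · have : ω ∉ Rev x K (j + 1) A := fun h => ha ((Rev_succ x K j A ω).mp h).1
        simp [ha, this]
      · have : ω ∉ Rev x K (j + 1) A := fun h => ha ((Rev_succ x K j A ω).mp h).1
        simp [ha, this]
    simp_rw [h1]
    have hm : Measurable[past X K] fun ω => Ψ ω * ENNReal.ofReal (mon (chi A) (pop x ω K)) :=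
      hΨ.mul (meas_mon_pop (chi A) x K)
    rw [ih (K + 1) _ (hm.mono (past_mono (Nat.le_succ K)) le_rfl),
      one_step μ x (aSeq_box μ A j) K _ hm]
    refine lintegral_congr fun ω => ?_
    rw [mul_assoc, ← ENNReal.ofReal_mul (mon_nonneg (chi_box A) _), ← mon_mul]
    rfl

theorem iter_gen_box (μ : X → PMF (X →₀ ℕ)) (k : ℕ) {w : X → ℝ} (hw : Box w) :
    Box ((gen μ)^[k] w) := iter_box (gen_good μ) k hw

theorem iter_gen_cont (μ : X → PMF (X →₀ ℕ)) (k : ℕ) {α : Type} (l : Filter α) (s : α → X → ℝ)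
    (t : X → ℝ) (hs : ∀ a, Box (s a)) (ht : Box t) (hst : Tendsto s l (𝓝 t)) :
    Tendsto (fun a => (gen μ)^[k] (s a)) l (𝓝 ((gen μ)^[k] t)) := by
  induction k with
  | zero => exact hst
  | succ k ih =>
    simp_rw [Function.iterate_succ_apply']
    exact (gen_good μ).cont l _ _ (Eventually.of_forall fun a => iter_gen_box μ k (hs a))
      (iter_gen_box μ k ht) ih

theorem iter_gen_mono (μ : X → PMF (X →₀ ℕ)) (k : ℕ) {s t : X → ℝ} (hs : Box s) (ht : Box t)
    (hst : s ≤ t) : (gen μ)^[k] s ≤ (gen μ)^[k] t := by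
  induction k with
  | zero => exact hst
  | succ k ih =>
    simp_rw [Function.iterate_succ_apply']
    exact (gen_good μ).mono _ _ (iter_gen_box μ k hs) (iter_gen_box μ k ht) ih

/-- Expectation of a monomial in generation `k`. -/
theorem lint_mon (μ : X → PMF (X →₀ ℕ)) (x : X) (k : ℕ) {v : X → ℝ} (hv : Box v) :
    ∫⁻ ω, ENNReal.ofReal (mon v (pop x ω k)) ∂(law μ) = ENNReal.ofReal ((gen μ)^[k] v x) := by
  have h := steps μ x 0 k hv (fun _ => 1) measurable_const
  simp_rw [one_mul, zero_add] at h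
  rw [h]
  have e2 : ∀ ω : Sample X, pop x ω 0 = Finsupp.single x 1 := fun _ => rfl
  simp_rw [e2, mon_single]
  rw [lintegral_const, measure_univ, mul_one]

/-- Probability of avoiding `A` during `j, ..., j+i`. -/
theorem prob_E (μ : X → PMF (X →₀ ℕ)) (x : X) (A : Set X) (j i : ℕ) :
    (law μ).real (Rev x j i A) = (gen μ)^[j] (aSeq μ A i) x := by
  have h1 : (law μ) (Rev x j i A) =
      ∫⁻ ω, (1 : ℝ≥0∞) * (Rev x j i A).indicator 1 ω ∂(law μ) := by
    simp_rw [one_mul]
    rw [lintegral_indicator_one (Rev_meas x j i A)]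
  rw [stay μ x A i j (fun _ => 1) measurable_const] at h1
  simp_rw [one_mul] at h1
  rw [lint_mon μ x j (aSeq_box μ A i)] at h1
  rw [Measure.real, h1, ENNReal.toReal_ofReal]
  exact (iter_gen_box μ j (aSeq_box μ A i) x).1

theorem real_iInter {ι : Type} [Preorder ι] [Countable ι] [Nonempty ι] [IsDirectedOrder ι]
    (μ : X → PMF (X →₀ ℕ)) (s : ι → Set (Sample X))
    (hs : ∀ i, MeasurableSet (s i)) (ha : Antitone s) :
    Tendsto (fun i => (law μ).real (s i)) atTop (𝓝 ((law μ).real (⋂ i, s i))) := by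
  have h := tendsto_measure_iInter_atTop (μ := law μ) (fun i => (hs i).nullMeasurableSet) ha
    ⟨Classical.arbitrary ι, measure_ne_top _ _⟩
  exact (ENNReal.tendsto_toReal (measure_ne_top _ _)).comp h

theorem real_iUnion {ι : Type} [Preorder ι] [Countable ι] [Nonempty ι] [IsDirectedOrder ι]
    (μ : X → PMF (X →₀ ℕ)) (s : ι → Set (Sample X)) (ha : Monotone s) :
    Tendsto (fun i => (law μ).real (s i)) atTop (𝓝 ((law μ).real (⋃ i, s i))) := by
  have h := tendsto_measure_iUnion_atTop (μ := law μ) ha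
  exact (ENNReal.tendsto_toReal (measure_ne_top _ _)).comp h

/-- Avoiding `A` in all generations from `K` on. -/
def Cev (x : X) (K : ℕ) (A : Set X) : Set (Sample X) := ⋂ i, Rev x K i A

/-- Eventually avoiding `A`. -/
def Dev (x : X) (A : Set X) : Set (Sample X) := ⋃ K, Cev x K A

theorem Rev_anti (x : X) (K : ℕ) (A : Set X) : Antitone fun i => Rev x K i A := by
  intro i i' h ω hω n h1 h2
  exact hω n h1 (by omega)

theorem mem_Cev (x : X) (K : ℕ) (A : Set X) (ω : Sample X) :
    ω ∈ Cev x K A ↔ ∀ n, K ≤ n → ω ∈ Zev x n A := by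
  simp only [Cev, mem_iInter]
  constructor
  · intro h n hn
    exact h n n hn (by omega)
  · intro h i n h1 _
    exact h n h1

theorem Cev_mono (x : X) (A : Set X) : Monotone fun K => Cev x K A := by
  intro K K' h ω hω
  rw [mem_Cev] at hω ⊢
  exact fun n hn => hω n (h.trans hn)

theorem Cev_meas (x : X) (K : ℕ) (A : Set X) : MeasurableSet (Cev x K A) :=
  MeasurableSet.iInter fun i => Rev_meas x K i A

theorem Dev_meas (x : X) (A : Set X) : MeasurableSet (Dev x A) :=
  MeasurableSet.iUnion fun K => Cev_meas x K A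

/-- Probability of avoiding `A` forever. -/
def alpha (μ : X → PMF (X →₀ ℕ)) (A : Set X) (x : X) : ℝ := (law μ).real (Cev x 0 A)

/-- Probability of eventually avoiding `A`. -/
def beta (μ : X → PMF (X →₀ ℕ)) (A : Set X) (x : X) : ℝ := (law μ).real (Dev x A)

theorem alpha_box (μ : X → PMF (X →₀ ℕ)) (A : Set X) : Box (alpha μ A) := fun _ =>
  ⟨measureReal_nonneg, measureReal_le_one⟩

theorem beta_box (μ : X → PMF (X →₀ ℕ)) (A : Set X) : Box (beta μ A) := fun _ =>
  ⟨measureReal_nonneg, measureReal_le_one⟩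

theorem aSeq_tendsto (μ : X → PMF (X →₀ ℕ)) (A : Set X) :
    Tendsto (aSeq μ A) atTop (𝓝 (alpha μ A)) := by
  rw [tendsto_pi_nhds]
  intro x
  have h := real_iInter μ (fun i => Rev x 0 i A) (fun i => Rev_meas x 0 i A) (Rev_anti x 0 A)
  simp only [prob_E, Function.iterate_zero, id] at h
  exact h

theorem prob_C (μ : X → PMF (X →₀ ℕ)) (x : X) (A : Set X) (j : ℕ) :
    (law μ).real (Cev x j A) = (gen μ)^[j] (alpha μ A) x := by
  have h := real_iInter μ (fun i => Rev x j i A) (fun i => Rev_meas x j i A) (Rev_anti x j A)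
  simp only [prob_E] at h
  have h2 := iter_gen_cont μ j atTop _ _ (aSeq_box μ A) (alpha_box μ A) (aSeq_tendsto μ A)
  exact tendsto_nhds_unique h ((tendsto_pi_nhds.mp h2) x)

theorem alpha_iter_tendsto (μ : X → PMF (X →₀ ℕ)) (A : Set X) :
    Tendsto (fun j => (gen μ)^[j] (alpha μ A)) atTop (𝓝 (beta μ A)) := by
  rw [tendsto_pi_nhds]
  intro x
  have h := real_iUnion μ (fun j => Cev x j A) (Cev_mono x A)
  simp only [prob_C] at h
  exact h

/-- A limit of iterates is a fixed point. -/
theorem fixed_of_tendsto (μ : X → PMF (X →₀ ℕ)) {v w : X → ℝ} (hv : Box v) (hw : Box w)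
    (h : Tendsto (fun j => (gen μ)^[j] v) atTop (𝓝 w)) : gen μ w = w := by
  have h1 := (gen_good μ).cont atTop (fun n => (gen μ)^[n] v) w
    (Eventually.of_forall fun n => iter_gen_box μ n hv) hw h
  have h2 : Tendsto (fun n => (gen μ)^[n + 1] v) atTop (𝓝 w) :=
    (tendsto_add_atTop_iff_nat 1).mpr h
  simp_rw [Function.iterate_succ_apply'] at h2
  exact tendsto_nhds_unique h1 h2

theorem beta_fixed (μ : X → PMF (X →₀ ℕ)) (A : Set X) : gen μ (beta μ A) = beta μ A :=
  fixed_of_tendsto μ (alpha_box μ A) (beta_box μ A) (alpha_iter_tendsto μ A)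

/-! ### The set where a fixed point is less than one -/

/-- If all children of types outside `A` are outside `A`, one never enters `A`. -/
theorem alpha_eq (μ : X → PMF (X →₀ ℕ)) (A : Set X)
    (h : ∀ x ∉ A, gen μ (chi A) x = 1) : alpha μ A = chi A := by
  have h1 : ∀ j, aSeq μ A j = chi A := by
    intro j
    induction j with
    | zero => rfl
    | succ j ih =>
      funext x
      show chi A x * gen μ (aSeq μ A j) x = chi A x
      rw [ih]
      by_cases hx : x ∈ A
      · simp [chi, hx]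
      · rw [h x hx, mul_one]
  have h2 := aSeq_tendsto μ A
  have h3 : aSeq μ A = fun _ => chi A := funext h1
  rw [h3] at h2
  exact (tendsto_nhds_unique h2 tendsto_const_nhds)

theorem gen_chi (μ : X → PMF (X →₀ ℕ)) {s : X → ℝ} (hs : Box s) (x : X)
    (hx : gen μ s x = 1) : gen μ (chi {y | s y < 1}) x = 1 := by
  have h1 : ∀ f : X →₀ ℕ, (μ x f).toReal * mon s f ≤ (μ x f).toReal := fun f =>
    mul_le_of_le_one_right ENNReal.toReal_nonneg (mon_le_one hs f)
  have h2 := (gen_summable μ hs x).hasSum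
  have h3 : ∀ f : X →₀ ℕ, (μ x f).toReal * mon s f = (μ x f).toReal := by
    intro f
    by_contra hne
    have hlt : (μ x f).toReal * mon s f < (μ x f).toReal := lt_of_le_of_ne (h1 f) hne
    have h4 : gen μ s x < 1 := by
      have := (gen_summable μ hs x).tsum_lt_tsum h1 hlt (hasSum_pmf (μ x)).summable
      rw [(hasSum_pmf (μ x)).tsum_eq] at this
      exact this
    exact absurd hx h4.ne
  have h5 : ∀ f : X →₀ ℕ, (μ x f).toReal * mon (chi {y | s y < 1}) f = (μ x f).toReal := by
    intro f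
    by_cases h0 : (μ x f).toReal = 0
    · rw [h0, zero_mul]
    · have h6 : mon s f = 1 := by
        have := h3 f
        exact mul_left_cancel₀ h0 (by rw [this, mul_one])
      have h7 : ∀ y ∈ {y | s y < 1}, f y = 0 := by
        intro y hy
        by_contra hfy
        have hy' : s y < 1 := hy
        have : mon s f ≤ s y := by
          classical
          unfold mon Finsupp.prod
          have hmem : y ∈ f.support := Finsupp.mem_support_iff.mpr hfy
          rw [← Finset.mul_prod_erase _ _ hmem]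
          have h8 : ∏ i ∈ f.support.erase y, s i ^ f i ≤ 1 :=
            Finset.prod_le_one (fun i _ => pow_nonneg (hs i).1 _)
              fun i _ => pow_le_one₀ (hs i).1 (hs i).2
          have h9 : s y ^ f y ≤ s y := by
            calc s y ^ f y ≤ s y ^ 1 :=
                  pow_le_pow_of_le_one (hs y).1 (hs y).2 (Nat.one_le_iff_ne_zero.mpr hfy)
              _ = s y := pow_one _
          calc s y ^ f y * ∏ i ∈ f.support.erase y, s i ^ f i ≤ s y ^ f y * 1 :=
                mul_le_mul_of_nonneg_left h8 (pow_nonneg (hs y).1 _)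
            _ ≤ s y := by rw [mul_one]; exact h9
        linarith
      classical
      rw [mon_chi, if_pos h7, mul_one]
  unfold gen
  simp_rw [h5]
  exact (hasSum_pmf (μ x)).tsum_eq

theorem iter_chi_tendsto (μ : X → PMF (X →₀ ℕ)) {s : X → ℝ} (hs : Box s) (fs : gen μ s = s) :
    Tendsto (fun k => (gen μ)^[k] (chi {y | s y < 1})) atTop (𝓝 (beta μ {y | s y < 1})) := by
  have h : alpha μ {y | s y < 1} = chi {y | s y < 1} := by
    refine alpha_eq μ _ fun x hx => gen_chi μ hs x ?_
    have hx' : ¬ s x < 1 := hx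
    rw [fs]
    exact le_antisymm (hs x).2 (not_lt.mp hx')
  have h2 := alpha_iter_tendsto μ {y | s y < 1}
  rwa [h] at h2

theorem beta_le (μ : X → PMF (X →₀ ℕ)) {s : X → ℝ} (hs : Box s) (fs : gen μ s = s) :
    beta μ {y | s y < 1} ≤ s := by
  have h0 : chi {y | s y < 1} ≤ s := by
    intro x
    unfold chi
    split_ifs with hx
    · exact (hs x).1
    · have hx' : ¬ s x < 1 := hx
      exact not_lt.mp hx'
  have h1 : ∀ k, (gen μ)^[k] (chi {y | s y < 1}) ≤ s := by
    intro k
    have := iter_gen_mono μ k (chi_box _) hs h0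
    have h3 : (gen μ)^[k] s = s := Function.iterate_fixed fs k
    rwa [h3] at this
  intro x
  exact le_of_tendsto' ((tendsto_pi_nhds.mp (iter_chi_tendsto μ hs fs)) x) fun k => h1 k x

end

end Pool.Agent.Q210.BR
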