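import Mathlib
import Pool.Agent.Q210.BR.SetExt

/-!
# A fixed point that is not an extinction vector lies among a continuum of fixed points
-/

open Filter Topology Set MeasureTheory ProbabilityTheory
open scoped ENNReal
open Pool.Agent.H632R3.Branch

set_option linter.unusedSectionVars false

namespace Pool.Agent.Q210.BR

noncomputable section

variable {X : Type} [Countable X]

/-! ### Expectations of functions of `∏ s^Z` -/

theorem meas_mon (v : X → ℝ) (x : X) (k : ℕ) :
    Measurable fun ω : Sample X => mon v (pop x ω k) :=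
  (measurable_of_countable fun f : X →₀ ℕ => mon v f).comp (pop_meas' x k)

theorem int_mon (μ : X → PMF (X →₀ ℕ)) (x : X) (k : ℕ) {v : X → ℝ} (hv : Box v) :
    ∫ ω, mon v (pop x ω k) ∂(law μ) = (gen μ)^[k] v x := by
  rw [integral_eq_lintegral_of_nonneg_ae (Eventually.of_forall fun ω => mon_nonneg hv _)
    (meas_mon v x k).aestronglyMeasurable, lint_mon μ x k hv,
    ENNReal.toReal_ofReal (iter_gen_box μ k hv x).1]

theorem integrable_of_bdd (μ : X → PMF (X →₀ ℕ)) {g : Sample X → ℝ} (hg : Measurable g)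
    (h0 : ∀ ω, 0 ≤ g ω) (h1 : ∀ ω, g ω ≤ 1) : Integrable g (law μ) := by
  refine (integrable_const (1 : ℝ)).mono' hg.aestronglyMeasurable (Eventually.of_forall fun ω => ?_)
  rw [Real.norm_of_nonneg (h0 ω)]
  exact h1 ω

/-- Coordinatewise real power. -/
def pw (s : X → ℝ) (r : ℝ) : X → ℝ := fun y => s y ^ r

theorem pw_box {s : X → ℝ} (hs : Box s) {r : ℝ} (hr : 0 ≤ r) : Box (pw s r) := fun y =>
  ⟨Real.rpow_nonneg (hs y).1 r, Real.rpow_le_one (hs y).1 (hs y).2 hr⟩

theorem mon_pw {s : X → ℝ} (hs : Box s) (r : ℝ) (f : X →₀ ℕ) :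
    mon (pw s r) f = mon s f ^ r := by
  unfold mon Finsupp.prod pw
  rw [← Real.finsetProd_rpow _ _ fun y _ => pow_nonneg (hs y).1 _]
  refine Finset.prod_congr rfl fun y _ => ?_
  dsimp only
  rw [← Real.rpow_natCast, ← Real.rpow_natCast, ← Real.rpow_mul (hs y).1, ← Real.rpow_mul (hs y).1,
    mul_comm]

theorem pw_le_gen (μ : X → PMF (X →₀ ℕ)) {s : X → ℝ} (hs : Box s) (fs : gen μ s = s) {r : ℝ}
    (hr : 1 ≤ r) : pw s r ≤ gen μ (pw s r) := by
  intro x
  have hr0 : 0 ≤ r := zero_le_one.trans hr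
  have h1 := int_mon μ x 1 hs
  have h2 := int_mon μ x 1 (pw_box hs hr0)
  simp only [Function.iterate_one] at h1 h2
  have h3 : (∫ ω, mon s (pop x ω 1) ∂(law μ)) ^ r ≤ ∫ ω, mon s (pop x ω 1) ^ r ∂(law μ) := by
    refine (convexOn_rpow hr).map_integral_le ?_ isClosed_Ici ?_ ?_ ?_
    · exact (Real.continuous_rpow_const hr0).continuousOn
    · exact Eventually.of_forall fun ω => mon_nonneg hs _
    · exact integrable_of_bdd μ (meas_mon s x 1) (fun ω => mon_nonneg hs _) fun ω =>
        mon_le_one hs _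
    · refine integrable_of_bdd μ ?_ (fun ω => ?_) fun ω => ?_
      · exact (Real.continuous_rpow_const hr0).measurable.comp (meas_mon s x 1)
      · exact Real.rpow_nonneg (mon_nonneg hs _) r
      · exact Real.rpow_le_one (mon_nonneg hs _) (mon_le_one hs _) hr0
  rw [h1, fs] at h3
  rw [← h2]
  simp_rw [mon_pw hs]
  exact h3

theorem exists_T (μ : X → PMF (X →₀ ℕ)) {s : X → ℝ} (hs : Box s) (fs : gen μ s = s) {r : ℝ}
    (hr : 1 ≤ r) : ∃ t : X → ℝ, Box t ∧ gen μ t = t ∧
      Tendsto (fun k => (gen μ)^[k] (pw s r)) atTop (𝓝 t) := by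
  have hr0 : 0 ≤ r := zero_le_one.trans hr
  have hb := pw_box hs hr0
  have hm : ∀ x, Monotone fun k => (gen μ)^[k] (pw s r) x := by
    intro x
    refine monotone_nat_of_le_succ fun k => ?_
    have h := iter_gen_mono μ k hb ((gen_good μ).box _ hb) (pw_le_gen μ hs fs hr)
    rw [← Function.iterate_succ_apply] at h
    exact h x
  have hbd : ∀ x, BddAbove (range fun k => (gen μ)^[k] (pw s r) x) := fun x =>
    ⟨1, by rintro _ ⟨k, rfl⟩; exact (iter_gen_box μ k hb x).2⟩
  have ht : Tendsto (fun k => (gen μ)^[k] (pw s r)) atTop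
      (𝓝 fun x => ⨆ k, (gen μ)^[k] (pw s r) x) := by
    rw [tendsto_pi_nhds]
    exact fun x => tendsto_atTop_ciSup (hm x) (hbd x)
  have hbox : Box fun x => ⨆ k, (gen μ)^[k] (pw s r) x := fun x =>
    ⟨ge_of_tendsto' ((tendsto_pi_nhds.mp ht) x) fun k => (iter_gen_box μ k hb x).1,
      le_of_tendsto' ((tendsto_pi_nhds.mp ht) x) fun k => (iter_gen_box μ k hb x).2⟩
  exact ⟨_, hbox, fixed_of_tendsto μ hb hbox ht, ht⟩

/-- Elementary inequality: for `0 ≤ m ≤ 1`. -/
theorem elem {r r' : ℝ} (hr : 1 ≤ r) (hrr : r < r') {ε : ℝ} (h0 : 0 < ε) (h1 : ε < 1) :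
    ∃ C : ℝ, 0 ≤ C ∧ ∀ m : ℝ, 0 ≤ m → m ≤ 1 → m * (1 - m) ≤ ε + C * (m ^ r - m ^ r') := by
  set κ : ℝ := ε ^ r * (1 - (1 - ε) ^ (r' - r)) with hκ
  have hd : 0 < r' - r := sub_pos.mpr hrr
  have h2 : (1 - ε) ^ (r' - r) < 1 := Real.rpow_lt_one (by linarith) (by linarith) hd
  have hκ0 : 0 < κ := mul_pos (Real.rpow_pos_of_pos h0 r) (by linarith)
  refine ⟨κ⁻¹, (inv_pos.mpr hκ0).le, fun m m0 m1 => ?_⟩
  have hfac : m ^ r - m ^ r' = m ^ r * (1 - m ^ (r' - r)) := by
    rcases m0.eq_or_lt with h | h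
    · rw [← h, Real.zero_rpow (by linarith), Real.zero_rpow (by linarith)]
      ring
    · rw [mul_sub, mul_one, ← Real.rpow_add h]
      congr 2; ring
  have hnn : 0 ≤ m ^ r - m ^ r' := by
    rw [hfac]
    exact mul_nonneg (Real.rpow_nonneg m0 r)
      (sub_nonneg.mpr (Real.rpow_le_one m0 m1 hd.le))
  have hnn' : 0 ≤ κ⁻¹ * (m ^ r - m ^ r') := mul_nonneg (inv_pos.mpr hκ0).le hnn
  by_cases ha : m ≤ ε
  · have : m * (1 - m) ≤ ε := by nlinarith
    linarith
  · by_cases hb : 1 - ε ≤ m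
    · have : m * (1 - m) ≤ ε := by nlinarith
      linarith
    · push Not at ha hb
      have h3 : κ ≤ m ^ r - m ^ r' := by
        rw [hfac, hκ]
        refine mul_le_mul (Real.rpow_le_rpow h0.le ha.le (by linarith)) ?_ (by linarith)
          (Real.rpow_nonneg m0 r)
        have := Real.rpow_le_rpow m0 hb.le hd.le
        linarith
      have h4 : 1 ≤ κ⁻¹ * (m ^ r - m ^ r') := by
        rw [inv_mul_eq_div, le_div_iff₀ hκ0, one_mul]; exact h3
      nlinarith

/-- If two of the moment fixed points agree, then `∏ s^Z` is asymptotically `0` or `1`. -/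
theorem zero_one_of_eq (μ : X → PMF (X →₀ ℕ)) {s : X → ℝ} (hs : Box s)
    {r r' : ℝ} (hr : 1 ≤ r) (hrr : r < r') {t : X → ℝ}
    (h1 : Tendsto (fun k => (gen μ)^[k] (pw s r)) atTop (𝓝 t))
    (h2 : Tendsto (fun k => (gen μ)^[k] (pw s r')) atTop (𝓝 t)) (x : X) :
    Tendsto (fun k => ∫ ω, mon s (pop x ω k) * (1 - mon s (pop x ω k)) ∂(law μ)) atTop (𝓝 0) := by
  have hr0 : 0 ≤ r := zero_le_one.trans hr
  have hr0' : 0 ≤ r' := hr0.trans hrr.le
  have i1 : ∀ k, Integrable (fun ω => mon s (pop x ω k) * (1 - mon s (pop x ω k))) (law μ) := by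
    intro k
    refine integrable_of_bdd μ ((meas_mon s x k).mul (measurable_const.sub (meas_mon s x k)))
      (fun ω => ?_) fun ω => ?_
    · exact mul_nonneg (mon_nonneg hs _) (sub_nonneg.mpr (mon_le_one hs _))
    · have := mon_nonneg hs (pop x ω k)
      have := mon_le_one hs (pop x ω k)
      nlinarith
  have i2 : ∀ k, ∀ q : ℝ, 0 ≤ q → Integrable (fun ω => mon s (pop x ω k) ^ q) (law μ) := by
    intro k q hq
    refine integrable_of_bdd μ ((Real.continuous_rpow_const hq).measurable.comp (meas_mon s x k))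
      (fun ω => Real.rpow_nonneg (mon_nonneg hs _) q) fun ω =>
        Real.rpow_le_one (mon_nonneg hs _) (mon_le_one hs _) hq
  have e1 : ∀ k, ∀ q : ℝ, 0 ≤ q → ∫ ω, mon s (pop x ω k) ^ q ∂(law μ) =
      (gen μ)^[k] (pw s q) x := by
    intro k q hq
    rw [← int_mon μ x k (pw_box hs hq)]
    simp_rw [mon_pw hs]
  rw [Metric.tendsto_atTop]
  intro δ hδ
  obtain ⟨ε, h0, h01, hεδ⟩ : ∃ ε : ℝ, 0 < ε ∧ ε < 1 ∧ ε < δ := by
    refine ⟨min (1 / 2) (δ / 2), by positivity, ?_, ?_⟩
    · exact lt_of_le_of_lt (min_le_left _ _) (by norm_num)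
    · exact lt_of_le_of_lt (min_le_right _ _) (by linarith)
  obtain ⟨C, hC0, hC⟩ := elem hr hrr h0 h01
  have h3 : Tendsto (fun k => ε + C * ((gen μ)^[k] (pw s r) x - (gen μ)^[k] (pw s r') x)) atTop
      (𝓝 (ε + C * (t x - t x))) :=
    ((((tendsto_pi_nhds.mp h1) x).sub ((tendsto_pi_nhds.mp h2) x)).const_mul C).const_add ε
  rw [sub_self, mul_zero, add_zero] at h3
  have h4 : ∀ᶠ k in atTop,
      ε + C * ((gen μ)^[k] (pw s r) x - (gen μ)^[k] (pw s r') x) < δ :=
    h3.eventually (gt_mem_nhds hεδ)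
  obtain ⟨N, hN⟩ := eventually_atTop.mp h4
  refine ⟨N, fun k hk => ?_⟩
  have h5 : 0 ≤ ∫ ω, mon s (pop x ω k) * (1 - mon s (pop x ω k)) ∂(law μ) :=
    integral_nonneg fun ω => mul_nonneg (mon_nonneg hs _) (sub_nonneg.mpr (mon_le_one hs _))
  rw [Real.dist_eq, sub_zero, abs_of_nonneg h5]
  refine lt_of_le_of_lt ?_ (hN k hk)
  have h6 : ∫ ω, mon s (pop x ω k) * (1 - mon s (pop x ω k)) ∂(law μ) ≤
      ∫ ω, (ε + C * (mon s (pop x ω k) ^ r - mon s (pop x ω k) ^ r')) ∂(law μ) := by
    refine integral_mono (i1 k) ?_ fun ω => hC _ (mon_nonneg hs _) (mon_le_one hs _)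
    exact (integrable_const ε).add (((i2 k r hr0).sub (i2 k r' hr0')).const_mul C)
  refine h6.trans (le_of_eq ?_)
  have e3 : ∫ ω, (ε + C * (mon s (pop x ω k) ^ r - mon s (pop x ω k) ^ r')) ∂(law μ) =
      ∫ _ω, ε ∂(law μ) + ∫ ω, C * (mon s (pop x ω k) ^ r - mon s (pop x ω k) ^ r') ∂(law μ) :=
    integral_add (integrable_const ε) (((i2 k r hr0).sub (i2 k r' hr0')).const_mul C)
  rw [e3, integral_const_mul, integral_sub (i2 k r hr0) (i2 k r' hr0'), e1 k r hr0, e1 k r' hr0']
  simp

/-! ### Restriction to the set where the fixed point is less than one -/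

open Classical in
/-- Extension of a vector by `1`. -/
def ext1 (D : Set X) (t : D → ℝ) : X → ℝ := fun x => if h : x ∈ D then t ⟨x, h⟩ else 1

/-- The generating function with the value `1` outside `D`. -/
def GD (μ : X → PMF (X →₀ ℕ)) (D : Set X) (t : D → ℝ) : D → ℝ := fun x => gen μ (ext1 D t) x

theorem ext1_mem (D : Set X) (t : D → ℝ) (x : D) : ext1 D t x = t x := by
  unfold ext1
  rw [dif_pos x.2]

theorem ext1_not (D : Set X) (t : D → ℝ) {x : X} (hx : x ∉ D) : ext1 D t x = 1 := by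
  unfold ext1
  rw [dif_neg hx]

theorem ext1_box {D : Set X} {t : D → ℝ} (ht : Box t) : Box (ext1 D t) := by
  intro x
  by_cases hx : x ∈ D
  · rw [ext1_mem D t ⟨x, hx⟩]; exact ht _
  · rw [ext1_not D t hx]; norm_num

theorem ext1_mono {D : Set X} {s t : D → ℝ} (h : s ≤ t) : ext1 D s ≤ ext1 D t := by
  intro x
  by_cases hx : x ∈ D
  · rw [ext1_mem D t ⟨x, hx⟩, ext1_mem D s ⟨x, hx⟩]; exact h _
  · rw [ext1_not D t hx, ext1_not D s hx]

theorem GD_good (μ : X → PMF (X →₀ ℕ)) (D : Set X) : GoodOp (GD μ D) where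
  box := fun s hs x => (gen_good μ).box _ (ext1_box hs) x
  mono := fun s t hs ht hst x => (gen_good μ).mono _ _ (ext1_box hs) (ext1_box ht)
    (ext1_mono hst) x
  cont := by
    intro α l s t hs ht hst
    have h := (gen_good μ).cont l (fun a => ext1 D (s a)) (ext1 D t)
      (hs.mono fun a ha => ext1_box ha) (ext1_box ht) ?_
    · rw [tendsto_pi_nhds] at h ⊢
      exact fun x => h x
    · rw [tendsto_pi_nhds] at hst ⊢
      intro x
      by_cases hx : x ∈ D
      · have h1 : (fun a => ext1 D (s a) x) = fun a => s a ⟨x, hx⟩ :=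
          funext fun a => ext1_mem D (s a) ⟨x, hx⟩
        rw [h1, ext1_mem D t ⟨x, hx⟩]
        exact hst _
      · have h1 : (fun a => ext1 D (s a) x) = fun a => 1 := funext fun a => ext1_not D (s a) hx
        rw [h1, ext1_not D t hx]
        exact tendsto_const_nhds
  conv := by
    intro s t hs ht hst θ t0 t1 x
    have h := (gen_good μ).conv _ _ (ext1_box hs) (ext1_box ht) (ext1_mono hst) θ t0 t1 x
    have h1 : (fun y => (1 - θ) * ext1 D s y + θ * ext1 D t y) =
        ext1 D (fun y => (1 - θ) * s y + θ * t y) := by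
      funext y
      by_cases hy : y ∈ D
      · rw [ext1_mem D _ ⟨y, hy⟩, ext1_mem D _ ⟨y, hy⟩, ext1_mem D _ ⟨y, hy⟩]
      · rw [ext1_not D _ hy, ext1_not D _ hy, ext1_not D _ hy]; ring
    rw [h1] at h
    exact h

theorem chi_le_ext1 {D : Set X} {t : D → ℝ} (ht : Box t) : chi D ≤ ext1 D t := by
  intro x
  by_cases hx : x ∈ D
  · rw [ext1_mem D t ⟨x, hx⟩]
    have : chi D x = 0 := by unfold chi; rw [if_pos hx]
    rw [this]; exact (ht _).1
  · rw [ext1_not D t hx]; exact (chi_box D x).2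

theorem gen_ext1_not (μ : X → PMF (X →₀ ℕ)) {D : Set X} (hD : ∀ x ∉ D, gen μ (chi D) x = 1)
    {t : D → ℝ} (ht : Box t) {x : X} (hx : x ∉ D) : gen μ (ext1 D t) x = 1 := by
  refine le_antisymm ((gen_good μ).box _ (ext1_box ht) x).2 ?_
  rw [← hD x hx]
  exact (gen_good μ).mono _ _ (chi_box D) (ext1_box ht) (chi_le_ext1 ht) x

theorem gen_ext1 (μ : X → PMF (X →₀ ℕ)) {D : Set X} (hD : ∀ x ∉ D, gen μ (chi D) x = 1)
    {t : D → ℝ} (ht : Box t) : gen μ (ext1 D t) = ext1 D (GD μ D t) := by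
  funext x
  by_cases hx : x ∈ D
  · rw [ext1_mem D _ ⟨x, hx⟩]; rfl
  · rw [ext1_not D _ hx, gen_ext1_not μ hD ht hx]

theorem iter_ext1 (μ : X → PMF (X →₀ ℕ)) {D : Set X} (hD : ∀ x ∉ D, gen μ (chi D) x = 1)
    {t : D → ℝ} (ht : Box t) (k : ℕ) : (gen μ)^[k] (ext1 D t) = ext1 D ((GD μ D)^[k] t) := by
  induction k with
  | zero => rfl
  | succ k ih =>
    rw [Function.iterate_succ_apply', Function.iterate_succ_apply', ih,
      gen_ext1 μ hD (iter_box (GD_good μ D) k ht)]

/-- The main construction: between the extinction vector of `D = {s < 1}` and `s`. -/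
theorem between (μ : X → PMF (X →₀ ℕ)) {s : X → ℝ} (hs : Box s) (fs : gen μ s = s)
    (hz : ∀ x, Tendsto (fun k => ∫ ω, mon s (pop x ω k) * (1 - mon s (pop x ω k)) ∂(law μ))
      atTop (𝓝 0)) (x0 : X) (c : ℝ) (h1 : beta μ {y | s y < 1} x0 < c) (h2 : c < s x0) :
    ∃ t : X → ℝ, Box t ∧ gen μ t = t ∧ t x0 = c := by
  classical
  set D : Set X := {y | s y < 1} with hDdef
  have hnotD : ∀ x ∉ D, s x = 1 := fun x hx => by
    have hx' : ¬ s x < 1 := hx
    exact le_antisymm (hs x).2 (not_lt.mp hx')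
  have hD : ∀ x ∉ D, gen μ (chi D) x = 1 := fun x hx =>
    gen_chi μ hs x (by rw [fs]; exact hnotD x hx)
  -- `x0` lies in `D`
  have hchi : ∀ k, chi D ≤ (gen μ)^[k] (chi D) := by
    intro k
    induction k with
    | zero => exact le_rfl
    | succ k ih =>
      rw [Function.iterate_succ_apply']
      intro x
      by_cases hx : x ∈ D
      · have : chi D x = 0 := by unfold chi; rw [if_pos hx]
        rw [this]
        exact ((gen_good μ).box _ (iter_gen_box μ k (chi_box D)) x).1
      · calc chi D x ≤ 1 := (chi_box D x).2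
          _ = gen μ (chi D) x := (hD x hx).symm
          _ ≤ _ := (gen_good μ).mono _ _ (chi_box D) (iter_gen_box μ k (chi_box D)) ih x
  have hbeta1 : ∀ x ∉ D, beta μ D x = 1 := by
    intro x hx
    refine le_antisymm (beta_box μ D x).2 ?_
    refine ge_of_tendsto' ((tendsto_pi_nhds.mp (iter_chi_tendsto μ hs fs)) x) fun k => ?_
    have h7 : chi D x = 1 := by unfold chi; rw [if_neg hx]
    have h8 := hchi k x
    rw [h7] at h8
    exact h8
  have hx0 : x0 ∈ D := by
    by_contra hx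
    have := hbeta1 x0 hx
    have := hnotD x0 hx
    linarith
  -- restrictions
  let a' : D → ℝ := fun x => beta μ D x
  let b' : D → ℝ := fun x => s x
  have ha' : Box a' := fun x => beta_box μ D x
  have hb' : Box b' := fun x => hs x
  have ea : ext1 D a' = beta μ D := by
    funext x
    by_cases hx : x ∈ D
    · rw [ext1_mem D _ ⟨x, hx⟩]
    · rw [ext1_not D _ hx, hbeta1 x hx]
  have eb : ext1 D b' = s := by
    funext x
    by_cases hx : x ∈ D
    · rw [ext1_mem D _ ⟨x, hx⟩]
    · rw [ext1_not D _ hx, hnotD x hx]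
  have hab : a' ≤ b' := fun x => beta_le μ hs fs x
  have fa : GD μ D a' = a' := by
    funext x
    show gen μ (ext1 D a') x = beta μ D x
    rw [ea, beta_fixed]
  have fb : GD μ D b' = b' := by
    funext x
    show gen μ (ext1 D b') x = s x
    rw [eb, fs]
  have e0 : ext1 D (0 : D → ℝ) = chi D := by
    funext x
    by_cases hx : x ∈ D
    · rw [ext1_mem D _ ⟨x, hx⟩]; simp [chi, hx]
    · rw [ext1_not D _ hx]; simp [chi, hx]
  have la : Tendsto (fun k => (GD μ D)^[k] 0) atTop (𝓝 a') := by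
    have h := iter_chi_tendsto μ hs fs
    rw [tendsto_pi_nhds] at h ⊢
    intro x
    have h3 : (fun k => (GD μ D)^[k] 0 x) = fun k => (gen μ)^[k] (chi D) x := by
      funext k
      rw [← e0, iter_ext1 μ hD box_zero, ext1_mem]
    rw [h3]
    exact h x
  have lb : ∀ F : Finset D, Tendsto (fun k => (GD μ D)^[k] (fun x => if x ∈ F then 0 else b' x))
      atTop (𝓝 b') := by
    intro F
    -- a bound for `s` on `F`
    obtain ⟨ρ, hρ1, hρ⟩ : ∃ ρ : ℝ, ρ < 1 ∧ ∀ y ∈ F, s y ≤ ρ := by
      rcases F.eq_empty_or_nonempty with hF | hF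
      · exact ⟨0, zero_lt_one, by simp [hF]⟩
      · refine ⟨F.sup' hF fun y => s y, ?_, fun y hy => Finset.le_sup' (fun y : D => s y) hy⟩
        rw [Finset.sup'_lt_iff]
        exact fun y _ => y.2
    set v : D → ℝ := fun x => if x ∈ F then 0 else b' x with hv
    have hvb : Box v := by
      intro x
      simp only [hv]
      split_ifs
      · exact ⟨le_rfl, zero_le_one⟩
      · exact hb' x
    rw [tendsto_pi_nhds]
    intro x
    have h3 : (fun k => (GD μ D)^[k] v x) = fun k => (gen μ)^[k] (ext1 D v) x := by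
      funext k
      rw [iter_ext1 μ hD hvb, ext1_mem]
    rw [h3]
    have hle : ext1 D v ≤ s := by
      rw [← eb]
      refine ext1_mono fun y => ?_
      simp only [hv]
      split_ifs
      · exact (hb' y).1
      · exact le_rfl
    -- pointwise comparison of the monomials
    have hpt : ∀ z : X →₀ ℕ, mon s z - mon s z * (1 - mon s z) / (1 - ρ) ≤ mon (ext1 D v) z := by
      intro z
      by_cases hz0 : ∀ y ∈ F, z (y : X) = 0
      · have e : mon (ext1 D v) z = mon s z := by
          unfold mon Finsupp.prod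
          refine Finset.prod_congr rfl fun y hy => ?_
          dsimp only
          by_cases hyD : y ∈ D
          · rw [ext1_mem D _ ⟨y, hyD⟩]
            have : (⟨y, hyD⟩ : D) ∉ F := fun h =>
              (Finsupp.mem_support_iff.mp hy) (hz0 ⟨y, hyD⟩ h)
            simp only [hv, if_neg this]
            rfl
          · rw [ext1_not D _ hyD, hnotD y hyD]
        rw [e]
        have : 0 ≤ mon s z * (1 - mon s z) / (1 - ρ) :=
          div_nonneg (mul_nonneg (mon_nonneg hs _) (sub_nonneg.mpr (mon_le_one hs _)))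
            (by linarith)
        linarith
      · push Not at hz0
        obtain ⟨y, hyF, hy⟩ := hz0
        have h4 : mon s z ≤ ρ := by
          refine le_trans ?_ (hρ y hyF)
          unfold mon Finsupp.prod
          have hmem : (y : X) ∈ z.support := Finsupp.mem_support_iff.mpr hy
          rw [← Finset.mul_prod_erase _ _ hmem]
          have h8 : ∏ i ∈ z.support.erase (y : X), s i ^ z i ≤ 1 :=
            Finset.prod_le_one (fun i _ => pow_nonneg (hs i).1 _)
              fun i _ => pow_le_one₀ (hs i).1 (hs i).2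
          calc s y ^ z y * ∏ i ∈ z.support.erase (y : X), s i ^ z i ≤ s y ^ z y * 1 :=
                mul_le_mul_of_nonneg_left h8 (pow_nonneg (hs y).1 _)
            _ ≤ s y ^ 1 := by
              rw [mul_one]
              exact pow_le_pow_of_le_one (hs y).1 (hs y).2 (Nat.one_le_iff_ne_zero.mpr hy)
            _ = s y := pow_one _
        have h5 : mon s z ≤ mon s z * (1 - mon s z) / (1 - ρ) := by
          rw [le_div_iff₀ (by linarith)]
          exact mul_le_mul_of_nonneg_left (by linarith) (mon_nonneg hs _)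
        have := mon_nonneg (ext1_box hvb) z
        linarith
    have hlow : ∀ k, s x - (∫ ω, mon s (pop x ω k) * (1 - mon s (pop x ω k)) ∂(law μ)) / (1 - ρ) ≤
        (gen μ)^[k] (ext1 D v) x := by
      intro k
      have i1 : Integrable (fun ω => mon s (pop x ω k) * (1 - mon s (pop x ω k))) (law μ) := by
        refine integrable_of_bdd μ ((meas_mon s x k).mul (measurable_const.sub (meas_mon s x k)))
          (fun ω => ?_) fun ω => ?_
        · exact mul_nonneg (mon_nonneg hs _) (sub_nonneg.mpr (mon_le_one hs _))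
        · have := mon_nonneg hs (pop x ω k)
          have := mon_le_one hs (pop x ω k)
          nlinarith
      have i2 : Integrable (fun ω => mon s (pop x ω k)) (law μ) :=
        integrable_of_bdd μ (meas_mon s x k) (fun ω => mon_nonneg hs _) fun ω => mon_le_one hs _
      have i3 : Integrable (fun ω => mon (ext1 D v) (pop x ω k)) (law μ) :=
        integrable_of_bdd μ (meas_mon (ext1 D v) (x : X) k)
          (fun ω => mon_nonneg (ext1_box hvb) _) fun ω => mon_le_one (ext1_box hvb) _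
      have e1 : ∫ ω, mon s (pop x ω k) ∂(law μ) = s x := by
        rw [int_mon μ x k hs, Function.iterate_fixed fs k]
      rw [← int_mon μ x k (ext1_box hvb), ← e1, ← integral_div, ← integral_sub i2 (i1.div_const _)]
      exact integral_mono (i2.sub (i1.div_const _)) i3 fun ω => hpt _
    have hup : ∀ k, (gen μ)^[k] (ext1 D v) x ≤ s x := by
      intro k
      have := iter_gen_mono μ k (ext1_box hvb) hs hle x
      rwa [Function.iterate_fixed fs k] at this
    have hlim : Tendsto (fun k => s x -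
        (∫ ω, mon s (pop x ω k) * (1 - mon s (pop x ω k)) ∂(law μ)) / (1 - ρ)) atTop
        (𝓝 (s x)) := by
      have h6 := ((hz x).div_const (1 - ρ)).const_sub (s x)
      rw [zero_div, sub_zero] at h6
      exact h6
    exact tendsto_of_tendsto_of_tendsto_of_le_of_le hlim tendsto_const_nhds hlow hup
  obtain ⟨t, ht, ft, _, _, hc⟩ := core (GD_good μ D) ha' hb' hab fa fb la
    (fun F => by convert lb F) ⟨x0, hx0⟩ c h1 h2
  refine ⟨ext1 D t, ext1_box ht, ?_, ?_⟩
  · rw [gen_ext1 μ hD ht, ft]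
  · rw [ext1_mem D t ⟨x0, hx0⟩, hc]

/-- The set of fixed points. -/
def FixG (μ : X → PMF (X →₀ ℕ)) : Set (X → ℝ) := {s | Box s ∧ gen μ s = s}

/-- A fixed point which is not the extinction vector of the set where it is less than one forces a
continuum of fixed points. -/
theorem continuum_le (μ : X → PMF (X →₀ ℕ)) {s : X → ℝ} (hs : Box s) (fs : gen μ s = s)
    (hne : s ≠ beta μ {y | s y < 1}) : Cardinal.continuum ≤ Cardinal.mk (FixG μ) := by
  have hT : ∀ r : ℝ, 1 ≤ r → ∃ t : X → ℝ, Box t ∧ gen μ t = t ∧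
      Tendsto (fun k => (gen μ)^[k] (pw s r)) atTop (𝓝 t) := fun r hr => exists_T μ hs fs hr
  choose! T hT1 hT2 hT3 using hT
  by_cases hinj : Set.InjOn T (Icc 1 2)
  · have h1 : Cardinal.mk (Icc (1 : ℝ) 2) = Cardinal.continuum := Cardinal.mk_Icc_real (by norm_num)
    rw [← h1]
    refine Cardinal.mk_le_of_injective (f := fun r : Icc (1 : ℝ) 2 =>
      (⟨T r, hT1 r r.2.1, hT2 r r.2.1⟩ : FixG μ)) fun r r' h => ?_
    exact Subtype.ext (hinj r.2 r'.2 (congrArg Subtype.val h))
  · have h2 : ∃ r r' : ℝ, 1 ≤ r ∧ r < r' ∧ T r = T r' := by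
      unfold Set.InjOn at hinj
      push Not at hinj
      obtain ⟨r, hr, r', hr', h, hne'⟩ := hinj
      rcases lt_or_gt_of_ne hne' with h3 | h3
      · exact ⟨r, r', hr.1, h3, h⟩
      · exact ⟨r', r, hr'.1, h3, h.symm⟩
    obtain ⟨r, r', hr, hrr, he⟩ := h2
    have hz : ∀ x, Tendsto (fun k => ∫ ω, mon s (pop x ω k) * (1 - mon s (pop x ω k)) ∂(law μ))
        atTop (𝓝 0) := fun x =>
      zero_one_of_eq μ hs hr hrr (hT3 r hr) (by rw [he]; exact hT3 r' (hr.trans hrr.le)) x
    have hle := beta_le μ hs fs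
    obtain ⟨x0, hx0⟩ : ∃ x0, beta μ {y | s y < 1} x0 < s x0 := by
      by_contra hcon
      push Not at hcon
      exact hne (le_antisymm hcon hle)
    have h3 : ∀ c : ℝ, c ∈ Ioo (beta μ {y | s y < 1} x0) (s x0) →
        ∃ t : X → ℝ, Box t ∧ gen μ t = t ∧ t x0 = c := fun c hc =>
      between μ hs fs hz x0 c hc.1 hc.2
    choose! U hU1 hU2 hU3 using h3
    rw [← Cardinal.mk_Ioo_real hx0]
    refine Cardinal.mk_le_of_injective (f := fun c : Ioo (beta μ {y | s y < 1} x0) (s x0) =>
      (⟨U c, hU1 c c.2, hU2 c c.2⟩ : FixG μ)) fun c c' h => ?_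
    have h4 : U c = U c' := congrArg Subtype.val h
    have h5 := congrFun h4 x0
    rw [hU3 c c.2, hU3 c' c'.2] at h5
    exact Subtype.ext h5

end

end Pool.Agent.Q210.BR
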