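import Mathlib
import Pool.Agent.Q210.BR.Main

/-!
# Extinction vectors, fixed points, and irreducibility
-/

open Filter Topology Set MeasureTheory ProbabilityTheory
open scoped ENNReal
open Pool.Agent.H632R3.Branch

set_option linter.unusedSectionVars false

namespace Pool.Agent.Q210.BR

noncomputable section

variable {X : Type}

open Classical in
/-- The number of individuals of the population `z` whose type lies in `A`. -/
def count (A : Set X) (z : X →₀ ℕ) : ℕ := z.sum fun y k => if y ∈ A then k else 0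

theorem count_eq_zero (A : Set X) (z : X →₀ ℕ) : count A z = 0 ↔ ∀ y ∈ A, z y = 0 := by
  classical
  unfold count Finsupp.sum
  rw [Finset.sum_eq_zero_iff]
  constructor
  · intro h y hy
    by_contra hne
    have := h y (Finsupp.mem_support_iff.mpr hne)
    dsimp only at this
    rw [if_pos hy] at this
    exact hne this
  · intro h y _
    dsimp only
    split_ifs with hA
    · exact h y hA
    · rfl

theorem ev_zero_eq (x : X) (A : Set X) [Countable X] :
    {ω : Sample X | ∀ᶠ n in atTop, count A (pop x ω n) = 0} = Dev x A := by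
  ext ω
  simp only [Dev, mem_iUnion, mem_Cev, mem_ofPred_eq, eventually_atTop, Zev, count_eq_zero]

variable [Countable X]

/-- The cardinality of a set of real vectors indexed by a countable set. -/
theorem card_le (S : Set (X → ℝ)) : Cardinal.mk S ≤ Cardinal.continuum := by
  refine (Cardinal.mk_set_le S).trans ?_
  rw [← Cardinal.power_def, Cardinal.mk_real]
  calc Cardinal.continuum ^ Cardinal.mk X ≤ Cardinal.continuum ^ Cardinal.aleph0 :=
        Cardinal.power_le_power_left Cardinal.continuum_ne_zero (Cardinal.mk_le_aleph0)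
    _ = Cardinal.continuum := Cardinal.continuum_power_aleph0

theorem eq_beta (μ : X → PMF (X →₀ ℕ)) (h : Cardinal.mk (FixG μ) ≠ Cardinal.continuum)
    {s : X → ℝ} (hs : s ∈ FixG μ) : s = beta μ {y | s y < 1} := by
  by_contra hne
  exact h (le_antisymm (card_le _) (continuum_le μ hs.1 hs.2 hne))

theorem beta_mem (μ : X → PMF (X →₀ ℕ)) (A : Set X) : beta μ A ∈ FixG μ :=
  ⟨beta_box μ A, beta_fixed μ A⟩

theorem one_mem (μ : X → PMF (X →₀ ℕ)) : (1 : X → ℝ) ∈ FixG μ := by
  refine ⟨fun x => ⟨zero_le_one, le_rfl⟩, ?_⟩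
  funext x
  unfold gen
  have h : ∀ f : X →₀ ℕ, (μ x f).toReal * mon (1 : X → ℝ) f = (μ x f).toReal := by
    intro f
    have : mon (1 : X → ℝ) f = 1 := by
      unfold mon Finsupp.prod
      exact Finset.prod_eq_one fun y _ => by simp
    rw [this, mul_one]
  simp_rw [h]
  exact (hasSum_pmf (μ x)).tsum_eq

/-- Types with `s = 1` only have children with `s = 1`. -/
theorem child_one (μ : X → PMF (X →₀ ℕ)) {s : X → ℝ} (hs : s ∈ FixG μ) {x y : X}
    (hx : s x = 1) (hxy : ∃ f : X →₀ ℕ, f y ≠ 0 ∧ μ x f ≠ 0) : s y = 1 := by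
  classical
  obtain ⟨f, hf, hμ⟩ := hxy
  by_contra hne
  have hy : s y < 1 := lt_of_le_of_ne (hs.1 y).2 hne
  have h1 : gen μ (chi {y | s y < 1}) x = 1 := gen_chi μ hs.1 x (by rw [hs.2]; exact hx)
  have h2 : ∀ g : X →₀ ℕ, (μ x g).toReal * mon (chi {y | s y < 1}) g ≤ (μ x g).toReal := fun g =>
    mul_le_of_le_one_right ENNReal.toReal_nonneg (mon_le_one (chi_box _) g)
  have h3 : (μ x f).toReal * mon (chi {y | s y < 1}) f < (μ x f).toReal := by
    have h0 : mon (chi {y | s y < 1}) f = 0 := by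
      rw [mon_chi, if_neg]
      intro h
      exact hf (h y hy)
    rw [h0, mul_zero]
    exact ENNReal.toReal_pos hμ (PMF.apply_ne_top _ _)
  have h4 := (gen_summable μ (chi_box {y | s y < 1}) x).tsum_lt_tsum h2 h3
    (hasSum_pmf (μ x)).summable
  rw [(hasSum_pmf (μ x)).tsum_eq] at h4
  exact absurd h1 h4.ne

/-- A type with `s = 1` has no descendants with `s < 1`. -/
theorem desc_one (μ : X → PMF (X →₀ ℕ)) {s : X → ℝ} (hs : s ∈ FixG μ) {x y : X}
    (hx : s x = 1) (hxy : 0 < (law μ) {ω | ∃ n, pop x ω n y ≠ 0}) : s y = 1 := by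
  by_contra hne
  have hy : s y < 1 := lt_of_le_of_ne (hs.1 y).2 hne
  have h : alpha μ {y | s y < 1} = chi {y | s y < 1} := by
    refine alpha_eq μ _ fun z hz => gen_chi μ hs.1 z ?_
    have hz' : ¬ s z < 1 := hz
    rw [hs.2]
    exact le_antisymm (hs.1 z).2 (not_lt.mp hz')
  have h1 : alpha μ {y | s y < 1} x = 1 := by
    rw [h]
    have : x ∉ {y | s y < 1} := fun h => absurd hx (ne_of_lt h)
    unfold chi
    rw [if_neg this]
  have h2 : (law μ) (Cev x 0 {y | s y < 1}) = 1 := by
    have h3 : (law μ).real (Cev x 0 {y | s y < 1}) = 1 := h1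
    rw [Measure.real] at h3
    rw [← ENNReal.toReal_eq_one_iff]
    exact h3
  have h3 : (law μ) (Cev x 0 {y | s y < 1})ᶜ = 0 := by
    rw [prob_compl_eq_zero_iff (Cev_meas x 0 _)]
    exact h2
  have h4 : {ω : Sample X | ∃ n, pop x ω n y ≠ 0} ⊆ (Cev x 0 {y | s y < 1})ᶜ := by
    rintro ω ⟨n, hn⟩ hω
    rw [mem_Cev] at hω
    exact hn (hω n (Nat.zero_le n) y hy)
  exact absurd (measure_mono_null h4 h3) hxy.ne'

end

end Pool.Agent.Q210.BR
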